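import Mathlib

set_option autoImplicit false

namespace Pool.Agent.Results.MP_130313_co.Counter

open Finset

/-- size of colour class `i` of the colouring `c` -/
def classSize {f k : ℕ} {F : SimpleGraph (Fin f)} (c : F.Coloring (Fin k)) (i : Fin k) : ℕ :=
  (Finset.univ.filter (fun v : Fin f => c v = i)).card

/-- the class sizes of `c` in non-decreasing order -/
def sortedSizes {f k : ℕ} {F : SimpleGraph (Fin f)} (c : F.Coloring (Fin k)) : List ℕ :=
  (List.ofFn (fun i : Fin k => classSize c i)).insertionSort (· ≤ ·)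

/-- sigma(F): least size of a colour class in an optimal colouring -/
noncomputable def sigma {f : ℕ} (F : SimpleGraph (Fin f)) : ℕ :=
  sInf {s : ℕ | ∃ k : ℕ, F.chromaticNumber = k ∧ ∃ c : F.Coloring (Fin k), ∃ i : Fin k,
    s = classSize c i}

/-- the critical chromatic number -/
noncomputable def chiCr {f : ℕ} (F : SimpleGraph (Fin f)) : ℝ :=
  ((F.chromaticNumber.toNat : ℝ) - 1) * f / ((f : ℝ) - sigma F)

/-- the set D(F) of consecutive differences of sorted class sizes of optimal colourings -/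
def diffSet {f : ℕ} (F : SimpleGraph (Fin f)) : Set ℕ :=
  {d : ℕ | ∃ k : ℕ, F.chromaticNumber = k ∧ ∃ c : F.Coloring (Fin k), ∃ i : ℕ, i + 1 < k ∧
    d = (sortedSizes c).getD (i + 1) 0 - (sortedSizes c).getD i 0}

open Classical in
/-- chi-star of a non-bipartite graph -/
noncomputable def chiStar {f : ℕ} (F : SimpleGraph (Fin f)) : ℝ :=
  if ∀ d : ℕ, (∀ x ∈ diffSet F, d ∣ x) → d = 1 then chiCr F else (F.chromaticNumber.toNat : ℝ)

/-- vertex-disjoint copies of `F` in `G` covering every vertex of `G` -/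
def HasPerfectPacking {f n : ℕ} (F : SimpleGraph (Fin f)) (G : SimpleGraph (Fin n)) : Prop :=
  ∃ m : ℕ, ∃ φ : Fin m → (F →g G), Function.Bijective (fun p : Fin m × Fin f => φ p.1 p.2)

def pF (x : Fin 18) : Fin 3 := if x.val < 1 then 0 else if x.val < 9 then 1 else 2

def FF : SimpleGraph (Fin 18) := (⊤ : SimpleGraph (Fin 3)).comap pF

lemma FF_adj (x y : Fin 18) : FF.Adj x y ↔ pF x ≠ pF y := by
  simp [FF]

def cF : FF.Coloring (Fin 3) := SimpleGraph.Coloring.mk pF (fun h => (FF_adj _ _).1 h)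

lemma cF_apply (x : Fin 18) : cF x = pF x := rfl

def rep (j : Fin 3) : Fin 18 := ![0, 1, 9] j

lemma pF_rep : ∀ j, pF (rep j) = j := by decide

lemma not_col2 : ¬ FF.Colorable 2 := by
  rintro ⟨c⟩
  have h1 : c 0 ≠ c 1 := c.valid ((FF_adj _ _).2 (by decide))
  have h2 : c 0 ≠ c 9 := c.valid ((FF_adj _ _).2 (by decide))
  have h3 : c 1 ≠ c 9 := c.valid ((FF_adj _ _).2 (by decide))
  revert h1 h2 h3
  generalize c 0 = a
  generalize c 1 = b
  generalize c 9 = d
  revert a b d
  decide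

lemma chi_FF : FF.chromaticNumber = 3 := by
  apply le_antisymm
  · have : FF.Colorable 3 := ⟨cF⟩
    exact_mod_cast this.chromaticNumber_le
  · by_contra h
    push Not at h
    have h2 : FF.chromaticNumber ≤ (2 : ℕ) := by
      have : (3 : ℕ∞) = (2 : ℕ) + 1 := by norm_num
      rw [this] at h
      exact Order.le_of_lt_add_one h
    exact not_col2 (SimpleGraph.chromaticNumber_le_iff_colorable.1 h2)

lemma fin3_aux : ∀ a b d x : Fin 3, a ≠ b → a ≠ d → b ≠ d → x ≠ b → x ≠ d → x = a := by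
  intro a b d x
  omega

lemma col_struct (g : Fin 18 → Fin 3) (hg : ∀ x y, pF x ≠ pF y → g x ≠ g y) (x : Fin 18) :
    g x = g (rep (pF x)) := by
  have h01 : g (rep 0) ≠ g (rep 1) := hg _ _ (by decide)
  have h02 : g (rep 0) ≠ g (rep 2) := hg _ _ (by decide)
  have h12 : g (rep 1) ≠ g (rep 2) := hg _ _ (by decide)
  have hx : ∀ j, pF x ≠ j → g x ≠ g (rep j) := fun j hj => hg _ _ (by rw [pF_rep]; exact hj)
  have : pF x = 0 ∨ pF x = 1 ∨ pF x = 2 := by
    generalize pF x = y
    revert y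
    decide
  rcases this with h | h | h
  · rw [h]
    exact fin3_aux _ _ _ _ h01 h02 h12 (hx 1 (by rw [h]; decide)) (hx 2 (by rw [h]; decide))
  · rw [h]
    exact fin3_aux _ _ _ _ h01.symm h12 h02 (hx 0 (by rw [h]; decide)) (hx 2 (by rw [h]; decide))
  · rw [h]
    exact fin3_aux _ _ _ _ h02.symm h12.symm h01 (hx 0 (by rw [h]; decide))
      (hx 1 (by rw [h]; decide))

lemma sizes_aux : ∀ a b d i : Fin 3, a ≠ b → a ≠ d → b ≠ d →
    (Finset.univ.filter (fun v : Fin 18 => (![a, b, d] : Fin 3 → Fin 3) (pF v) = i)).card = 1 ∨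
    (Finset.univ.filter (fun v : Fin 18 => (![a, b, d] : Fin 3 → Fin 3) (pF v) = i)).card = 8 ∨
    (Finset.univ.filter (fun v : Fin 18 => (![a, b, d] : Fin 3 → Fin 3) (pF v) = i)).card = 9 := by
  decide +kernel

lemma col_sizes (g : Fin 18 → Fin 3) (hg : ∀ x y, pF x ≠ pF y → g x ≠ g y) (i : Fin 3) :
    (Finset.univ.filter (fun v : Fin 18 => g v = i)).card = 1 ∨
    (Finset.univ.filter (fun v : Fin 18 => g v = i)).card = 8 ∨
    (Finset.univ.filter (fun v : Fin 18 => g v = i)).card = 9 := by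
  have e : ∀ v, g v = (![g (rep 0), g (rep 1), g (rep 2)] : Fin 3 → Fin 3) (pF v) := by
    intro v
    rw [col_struct g hg v]
    generalize pF v = j
    fin_cases j <;> rfl
  have := sizes_aux (g (rep 0)) (g (rep 1)) (g (rep 2)) i (hg _ _ (by decide))
    (hg _ _ (by decide)) (hg _ _ (by decide))
  simpa only [← e] using this

lemma sigma_FF : sigma FF = 1 := by
  have h1 : (1 : ℕ) ∈ {s : ℕ | ∃ k : ℕ, FF.chromaticNumber = k ∧ ∃ c : FF.Coloring (Fin k),
      ∃ i : Fin k, s = classSize c i} := ⟨3, chi_FF, cF, 0, by decide⟩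
  apply le_antisymm (Nat.sInf_le h1)
  obtain ⟨k, hk, c, i, hi⟩ := Nat.sInf_mem ⟨1, h1⟩
  have hk3 : k = 3 := by
    rw [chi_FF] at hk
    exact_mod_cast hk.symm
  subst hk3
  have := col_sizes c (fun x y h => c.valid ((FF_adj _ _).2 h)) i
  rw [hi]
  unfold classSize
  omega

lemma chiStar_FF : chiStar FF = 36 / 17 := by
  have h1 : (1 : ℕ) ∈ diffSet FF := ⟨3, chi_FF, cF, 1, by norm_num, by decide⟩
  unfold chiStar
  rw [if_pos (fun d hd => Nat.dvd_one.1 (hd 1 h1))]
  unfold chiCr
  rw [sigma_FF, chi_FF]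
  norm_num

def pG (M : ℕ) (x : ℕ) : Fin 3 := if x < 2 * M + 42 then 0 else if x < 19 * M + 30 then 1 else 2

def GG (M : ℕ) : SimpleGraph (Fin (36 * M + 18)) :=
  (⊤ : SimpleGraph (Fin 3)).comap (fun x => pG M x.val)

lemma GG_adj (M : ℕ) (x y : Fin (36 * M + 18)) : (GG M).Adj x y ↔ pG M x.val ≠ pG M y.val := by
  simp [GG]

lemma card_fin_filter (n : ℕ) (p : ℕ → Prop) [DecidablePred p] :
    (Finset.univ.filter (fun x : Fin n => p x.val)).card = ((Finset.range n).filter p).card := by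
  rw [← Finset.card_map Fin.valEmbedding]
  congr 1
  ext x
  simp only [Finset.mem_map, Finset.mem_filter, Finset.mem_univ, true_and, Fin.valEmbedding_apply,
    Finset.mem_range]
  constructor
  · rintro ⟨a, h, rfl⟩
    exact ⟨a.2, h⟩
  · rintro ⟨h1, h2⟩
    exact ⟨⟨x, h1⟩, h2, rfl⟩

lemma part0 (M : ℕ) (hM : 4 ≤ M) :
    (Finset.univ.filter (fun x : Fin (36 * M + 18) => pG M x.val = 0)).card = 2 * M + 42 := by
  rw [card_fin_filter (36 * M + 18) (fun x => pG M x = 0)]
  have : (Finset.range (36 * M + 18)).filter (fun x => pG M x = 0) = Finset.range (2 * M + 42) := by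
    ext x
    simp only [Finset.mem_filter, Finset.mem_range]
    unfold pG
    split_ifs with h1 h2
    · simp; omega
    · simp; omega
    · simp; omega
  rw [this, Finset.card_range]

lemma part1 (M : ℕ) (hM : 4 ≤ M) :
    (Finset.univ.filter (fun x : Fin (36 * M + 18) => pG M x.val = 1)).card = 17 * M - 12 := by
  rw [card_fin_filter (36 * M + 18) (fun x => pG M x = 1)]
  have : (Finset.range (36 * M + 18)).filter (fun x => pG M x = 1)
      = Finset.Ico (2 * M + 42) (19 * M + 30) := by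
    ext x
    simp only [Finset.mem_filter, Finset.mem_range, Finset.mem_Ico]
    unfold pG
    split_ifs with h1 h2
    · simp; omega
    · simp; omega
    · simp; omega
  rw [this, Nat.card_Ico]
  omega

lemma part2 (M : ℕ) (hM : 4 ≤ M) :
    (Finset.univ.filter (fun x : Fin (36 * M + 18) => pG M x.val = 2)).card = 17 * M - 12 := by
  rw [card_fin_filter (36 * M + 18) (fun x => pG M x = 2)]
  have : (Finset.range (36 * M + 18)).filter (fun x => pG M x = 2)
      = Finset.Ico (19 * M + 30) (36 * M + 18) := by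
    ext x
    simp only [Finset.mem_filter, Finset.mem_range, Finset.mem_Ico]
    unfold pG
    split_ifs with h1 h2
    · simp; omega
    · simp; omega
    · simp; omega
  rw [this, Nat.card_Ico]
  omega

lemma part_le (M : ℕ) (hM : 4 ≤ M) (j : Fin 3) :
    (Finset.univ.filter (fun x : Fin (36 * M + 18) => pG M x.val = j)).card ≤ 17 * M - 12 := by
  have h0 := part0 M hM
  have h1 := part1 M hM
  have h2 := part2 M hM
  fin_cases j
  · simp only [Fin.zero_eta]; omega
  · simp only [Fin.mk_one]; omega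
  · simp only [Fin.reduceFinMk]; omega

lemma deg_ge (M : ℕ) (hM : 4 ≤ M) [DecidableRel (GG M).Adj] (x : Fin (36 * M + 18)) :
    19 * M + 30 ≤ (GG M).degree x := by
  have h := part_le M hM (pG M x.val)
  have h2 := Finset.card_filter_add_card_filter_not
    (s := (Finset.univ : Finset (Fin (36 * M + 18)))) (fun y => pG M y.val = pG M x.val)
  have h3 : (GG M).neighborFinset x
      = Finset.univ.filter (fun y : Fin (36 * M + 18) => ¬ pG M y.val = pG M x.val) := by
    ext y
    simp only [SimpleGraph.mem_neighborFinset, GG_adj, Finset.mem_filter, Finset.mem_univ, true_and]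
    exact ⟨fun h e => h e.symm, fun h e => h e.symm⟩
  rw [← SimpleGraph.card_neighborFinset_eq_degree, h3]
  rw [Finset.card_univ, Fintype.card_fin] at h2
  omega

lemma sum_repr (m : ℕ) (a : Fin m → ℕ) (h : ∀ i, a i = 1 ∨ a i = 8 ∨ a i = 9) :
    ∃ u v : ℕ, ∑ i, a i = m + 7 * u + 8 * v := by
  induction m with
  | zero => exact ⟨0, 0, by simp⟩
  | succ m ih =>
    obtain ⟨u, v, e⟩ := ih (fun i => a i.succ) (fun i => h _)
    rw [Fin.sum_univ_succ, e]
    rcases h 0 with h0 | h0 | h0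
    · exact ⟨u, v, by omega⟩
    · exact ⟨u + 1, v, by omega⟩
    · exact ⟨u, v + 1, by omega⟩

lemma no_packing (M : ℕ) (hM : 4 ≤ M) : ¬ HasPerfectPacking FF (GG M) := by
  rintro ⟨m, φ, hφ⟩
  have hc := Fintype.card_of_bijective hφ
  simp only [Fintype.card_prod, Fintype.card_fin] at hc
  have hm : m = 2 * M + 1 := by omega
  have hs : ∀ i : Fin m, ∀ x y, pF x ≠ pF y → pG M (φ i x).val ≠ pG M (φ i y).val :=
    fun i x y h => (GG_adj M _ _).1 ((φ i).map_rel ((FF_adj _ _).2 h))
  obtain ⟨u, v, e⟩ := sum_repr m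
    (fun i => (Finset.univ.filter (fun x : Fin 18 => pG M (φ i x).val = 0)).card)
    (fun i => col_sizes (fun x => pG M (φ i x).val) (hs i) 0)
  have h0 := part0 M hM
  have h1 : (Finset.univ.filter (fun p : Fin m × Fin 18 => pG M (φ p.1 p.2).val = 0)).card
      = (Finset.univ.filter (fun x : Fin (36 * M + 18) => pG M x.val = 0)).card := by
    apply Finset.card_bij (fun p _ => φ p.1 p.2)
    · intro p hp
      simpa using hp
    · intro p _ q _ h
      exact hφ.1 h
    · intro y hy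
      obtain ⟨p, rfl⟩ := hφ.2 y
      exact ⟨p, by simpa using hy, rfl⟩
  have h2 : (Finset.univ.filter (fun p : Fin m × Fin 18 => pG M (φ p.1 p.2).val = 0)).card
      = ∑ i : Fin m, (Finset.univ.filter (fun x : Fin 18 => pG M (φ i x).val = 0)).card := by
    simp only [Finset.card_filter]
    rw [Fintype.sum_prod_type]
  omega

open Classical in
theorem result : ∃ (f : ℕ) (F : SimpleGraph (Fin f)), ¬ F.Colorable 2 ∧
    ∀ n₀ : ℕ, ∃ n : ℕ, n₀ ≤ n ∧ f ∣ n ∧ ∃ G : SimpleGraph (Fin n),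
      (1 - 1 / chiStar F) * (n : ℝ) + (f : ℝ) ≤ (G.minDegree : ℝ) ∧ ¬ HasPerfectPacking F G := by
  refine ⟨18, FF, not_col2, fun n₀ => ⟨36 * (n₀ + 4) + 18, by omega, ⟨2 * (n₀ + 4) + 1, by ring⟩,
    GG (n₀ + 4), ?_, no_packing _ (by omega)⟩⟩
  have h : 19 * (n₀ + 4) + 30 ≤ (GG (n₀ + 4)).minDegree :=
    SimpleGraph.le_minDegree_of_forall_le_degree _ _ (fun x => deg_ge _ (by omega) x)
  have h' : ((19 * (n₀ + 4) + 30 : ℕ) : ℝ) ≤ ((GG (n₀ + 4)).minDegree : ℝ) := by exact_mod_cast h
  rw [chiStar_FF]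
  refine le_trans ?_ h'
  push_cast
  linarith

end Pool.Agent.Results.MP_130313_co.Counter
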